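import Pool.Agent.Q26.PD.LW4
import Pool.Agent.H373R2.T7.PB3

set_option autoImplicit false

/-! `p` and `N - G(p)` prime, `F_1(p), ..., F_g(p)` without small prime factors: the deterministic part. -/

namespace Pool.Agent.Q26.PW
open Finset Polynomial
open Pool.Agent.H373R2.T7
open Pool.Agent.H373R2.T7.TB
open Pool.Agent.H373R2.T7.PB

/-- the conclusion for one `N` with a good approximation by the model -/
theorem pb_det (D : ℕ) (ε : ℝ) (hε : 0 < ε) : ∃ K : ℕ, 1 ≤ K ∧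
    ∀ (g : ℕ) (F : Fin g → ℤ[X]), (∀ i, 1 ≤ (F i).natDegree) → (∀ i, 0 < (F i).leadingCoeff) →
    ∀ G : ℤ[X], 1 ≤ G.natDegree → 0 < G.leadingCoeff → ∑ i, (F i).natDegree + G.natDegree ≤ D →
    ∀ κ : ℝ, 0 < κ → ∃ U' : ℕ, ∀ E : ℕ, ∃ x0 : ℕ, ∀ x : ℕ, x0 ≤ x →
      ∀ z y : ℕ, Real.log x ≤ z → (z : ℝ) ≤ Real.log x ^ E → z ≤ y → y ^ K ≤ x → ∀ N : ℕ, 1 ≤ N →
      |∑ n ∈ Icc 1 x, (lamP (n : ℤ) * rw1 F y n) * (lamP ((N : ℤ) - G.eval (n : ℤ)) - lamzI z ((N : ℤ) - G.eval (n : ℤ)))| ≤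
        x / Real.log x ^ U' →
      NoFixed (PArg.eF F) G N → κ * x ≤ SHN.XCount G N x →
        |WP F G N y x - TP F G N z y x| ≤ ε * TP F G N z y x := by
  classical
  obtain ⟨δ, hδd⟩ : ∃ δ : ℝ, δ = (min ε 1) / 2 := ⟨_, rfl⟩
  have hmin : 0 < min ε 1 := lt_min hε one_pos
  have hmin1 : min ε 1 ≤ 1 := min_le_right _ _
  have hδ : 0 < δ := by rw [hδd]; positivity
  have hδ1 : δ ≤ 1 := by rw [hδd]; linarith
  obtain ⟨K, hK1, hfund'⟩ := lam_fund (D + 1) (by omega) δ hδ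
  refine ⟨K, hK1, fun g F hF hFl G hG hGl hD κ hκ => ?_⟩
  obtain ⟨c0, C2, N2, hc0, hlowT⟩ := main_lowP F hF hFl G hG hGl
  obtain ⟨U, hU⟩ : ∃ U : ℕ, U = 0 := ⟨_, rfl⟩
  obtain ⟨xs, hfund⟩ := hfund' ((U + C2 + 4) + 1)
  obtain ⟨n0, hn0, hseg⟩ := seg_one G hG hGl
  refine ⟨U + C2 + 4, fun E => ?_⟩
  obtain ⟨n2a, h2a⟩ := ev_L' 4
  obtain ⟨n2b, h2b⟩ := ev_L' (3 / (δ * c0 * κ))
  obtain ⟨n2e, h2e⟩ := ev_L' (xs + N2)
  obtain ⟨n4, h4⟩ := Vz_inv_small E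
  obtain ⟨n5, h5⟩ := ev_log' (2 + (U + C2 + 4)) (3 * n0 + 2)
  refine ⟨n2a + n2b + n2e + n4 + n5 + 2, fun x hx z y hz1 hz2 hzy hyK N hN g1 hNF hXε => ?_⟩
  have hL4 := h2a x (by omega)
  have hLb := h2b x (by omega)
  have hLe := h2e x (by omega)
  have a5 := h5 x (by omega)
  have hVz := h4 x (by omega) z
  have hx2 : 2 ≤ x := by omega
  have hlowT' := hlowT N z y x
  clear h2a h2b h2e h4 h5 hx hlowT
  have hfund2 := fun Q hQ X hX => hfund x y (by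
    have hyr : Real.log x ≤ y := hz1.trans (by exact_mod_cast hzy)
    have h6 : (0 : ℝ) ≤ N2 := Nat.cast_nonneg _
    have : (xs : ℝ) ≤ y := by linarith
    exact_mod_cast this) hyK Q hQ X hX
  clear hfund hfund'
  generalize hLx : Real.log (x : ℝ) = L at *
  have hx0 : (0 : ℝ) < x := by exact_mod_cast (by omega : 0 < x)
  have hL0 : 0 < L := by linarith
  have hL1 : 1 ≤ L := by linarith
  have hz : 1 ≤ z := by
    have : (1 : ℝ) ≤ z := hL1.trans hz1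
    exact_mod_cast this
  have hyr : L ≤ y := hz1.trans (by exact_mod_cast hzy)
  have hN2 : N2 ≤ y := by
    have h6 : (0 : ℝ) ≤ xs := Nat.cast_nonneg _
    have : (N2 : ℝ) ≤ y := by linarith
    exact_mod_cast this
  have hyx : y ≤ x := by
    calc y = y ^ 1 := (pow_one _).symm
      _ ≤ y ^ K := Nat.pow_le_pow_right (hz.trans hzy) hK1
      _ ≤ x := hyK
  have hV := hVz hz hz2
  have hV0 : 0 ≤ (Vz z)⁻¹ := (inv_pos.2 (Vz_pos z)).le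
  have hd1 : 3 ≤ δ * c0 * κ * L := by
    rw [div_le_iff₀ (by positivity)] at hLb
    linarith
  obtain ⟨X', hX', hX'2⟩ := hseg N hN x
  have hPer := perA_of F hF hFl G hG hGl N z hNF (D + 1) (by omega)
  have hfd := hfund2 (Qc F G N z) hPer X' hX'
  have hmod := model_asymP F G N z y x n0 hzy (by omega) X' hX' hX'2 δ (x / L ^ ((U + C2 + 4) + 1)) L hLx hL1 hδ.le hδ1 hfd
  have hsum : ∑ n ∈ Icc 1 x, (lamP (n : ℤ) * rw1 F y n) * (lamP ((N : ℤ) - G.eval (n : ℤ)) - lamzI z ((N : ℤ) - G.eval (n : ℤ))) =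
      ∑ n ∈ Icc 1 x, (lamP (n : ℤ) * rw1 F y n) * lamP ((N : ℤ) - G.eval (n : ℤ)) - ∑ n ∈ Icc 1 x, (lamP (n : ℤ) * rw1 F y n) * lamzI z ((N : ℤ) - G.eval (n : ℤ)) := by
    rw [← sum_sub_distrib]
    apply sum_congr rfl
    intro n _
    ring
  rw [hsum] at g1
  have hp := pointP _ _ _ _ _ x L δ κ c0 n0 C2 U (by exact_mod_cast hx2) hL4 hδ hκ hc0 hd1 hV hV0 a5
    (hlowT' hN2 hyx hNF) hmod g1 hXε
  rw [WP_eq, TP_eq F G N z y x hzy]
  refine hp.trans ?_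
  have h5δ : 2 * δ = min ε 1 := by rw [hδd]; ring
  rw [h5δ] at hp ⊢
  have h7 := (abs_nonneg _).trans hp
  exact mul_le_mul_of_nonneg_right (min_le_left _ _) (nonneg_of_mul_nonneg_right h7 hmin)

end Pool.Agent.Q26.PW
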