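import Pool.Agent.Q26.PW.PW1
import Pool.Agent.W93.GB2

set_option autoImplicit false

/-! Primes with arbitrary weights in one linear form with a random constant: all short translates. -/

namespace Pool.Agent.Q26.PW
open Finset
open Pool.Agent.H807R2.Dav
open Pool.Agent.H373R2.T7
open Pool.Agent.Y885 (TLaw las_lawP)
open Pool.Agent.Y820.LF
open Pool.Agent.Q26.PD
open Pool.Agent.W93.GB (pp pp_nonneg sum_pp lam_nat)

/-- prime powers -/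
lemma pp_form (N X m : ℕ) (hm : 1 ≤ m) (hN : 1 ≤ N) :
    ∑ n ∈ Icc 1 X, |lamI ((N : ℤ) - m * (n : ℤ)) - lamP ((N : ℤ) - m * (n : ℤ))| ≤ 2 * √(N : ℝ) * Real.log N := by
  classical
  refine le_trans ?_ (sum_pp N hN)
  have h1 : ∀ n ∈ Icc 1 X, |lamI ((N : ℤ) - m * (n : ℤ)) - lamP ((N : ℤ) - m * (n : ℤ))| =
      if m * n < N then pp (N - m * n) else 0 := by
    intro n _
    split_ifs with h
    · have e1 : (N : ℤ) - m * (n : ℤ) = ((N - m * n : ℕ) : ℤ) := by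
        rw [Nat.cast_sub h.le]; push_cast; ring
      rw [e1, lam_nat]
      exact abs_of_nonneg (pp_nonneg _)
    · have h2 : (N : ℤ) - m * (n : ℤ) ≤ 0 := by
        have : N ≤ m * n := not_lt.1 h
        have h3 : (N : ℤ) ≤ ((m * n : ℕ) : ℤ) := by exact_mod_cast this
        push_cast at h3
        linarith
      have h3 : lamI ((N : ℤ) - m * (n : ℤ)) = 0 := by
        unfold lamI
        rw [if_neg (by omega)]
      have h4 : lamP ((N : ℤ) - m * (n : ℤ)) = 0 := by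
        unfold lamP
        rw [if_neg]
        rw [Int.toNat_of_nonpos h2]
        exact Nat.not_prime_zero
      rw [h3, h4, sub_zero, abs_zero]
  rw [sum_congr rfl h1, ← sum_filter]
  have hinj : Set.InjOn (fun n : ℕ => N - m * n) ↑((Icc 1 X).filter (fun n => m * n < N)) := by
    intro a ha b hb h
    simp only [coe_filter, Set.mem_ofPred_eq] at ha hb h
    have : m * a = m * b := by omega
    exact Nat.eq_of_mul_eq_mul_left (by omega) this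
  rw [← sum_image (f := fun b => pp b) hinj]
  apply sum_le_sum_of_subset_of_nonneg
  · intro b hb
    rw [mem_image] at hb
    obtain ⟨n, hn, rfl⟩ := hb
    rw [mem_filter, mem_Icc] at hn
    rw [mem_Icc]
    omega
  · intro b _ _
    exact pp_nonneg b

/-- Few constants are bad for a bounded weight, a bounded coefficient and a short translate. -/
theorem pw_rare (M0 B Bt Et U U1 R' : ℕ) (hM0 : 1 ≤ M0) (κ : ℤ) : ∃ n0 : ℕ, ∀ X : ℕ, n0 ≤ X →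
    ∀ z : ℕ, Real.log ((M0 * X : ℕ) : ℝ) ^ Bt ≤ z → (z : ℝ) ≤ Real.log ((M0 * X : ℕ) : ℝ) ^ Et →
    ∀ W : ℕ → ℝ, (∀ n ∈ Icc 1 X, |W n| ≤ Real.log X) → ∀ (c : ℤ) (Ω : Finset ℕ) (p : ℕ → ℝ),
    |c| ≤ (B : ℤ) * X → (∀ v ∈ Ω, 0 ≤ p v) → OneZ (M0 * X) (U + U1 + R' + 4) Bt Et (B + 3) κ Ω p →
    ∀ Bad : ℕ → Prop, [DecidablePred Bad] →
    (∀ v ∈ Ω, Bad v → ∃ m : ℕ, 1 ≤ m ∧ m ≤ M0 ∧ ∃ d : ℤ, |d| ≤ (⌊Real.log X ^ R'⌋₊ : ℤ) ∧
      (X : ℝ) / Real.log X ^ U1 < |∑ n ∈ Icc 1 X, W n * (lamI (-(m : ℤ) * (n : ℤ) + ((c + d) + κ * (v : ℤ))) -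
        lamzI z (-(m : ℤ) * (n : ℤ) + ((c + d) + κ * (v : ℤ))))|) →
    ∑ v ∈ Ω, (if Bad v then p v else 0) ≤ 1 / Real.log X ^ U := by
  classical
  obtain ⟨n1, h1⟩ := ev_L' (3 * (M0 : ℝ) * M0 + 2)
  obtain ⟨n2, h2⟩ := ev_log' R' 1
  refine ⟨n1 + n2 + 2, fun X hX z hz1 hz2 W hW c Ω p hc hp0 hone Bad _ hBad => ?_⟩
  have hL := h1 X (by omega)
  have hL2 := h2 X (by omega)
  rw [one_mul] at hL2
  have hX0 : (0 : ℝ) < X := by exact_mod_cast (by omega : 0 < X)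
  have hM0r : (1 : ℝ) ≤ M0 := by exact_mod_cast hM0
  obtain ⟨L, hLd⟩ : ∃ L, L = Real.log (X : ℝ) := ⟨_, rfl⟩
  obtain ⟨R, hR⟩ : ∃ R, R = ⌊Real.log (X : ℝ) ^ R'⌋₊ := ⟨_, rfl⟩
  rw [← hR] at hBad
  rw [← hLd] at hL hL2 hBad hW hR ⊢
  have hL1 : 1 ≤ L := by nlinarith
  have hL0 : 0 < L := by linarith
  have hRl : (R : ℝ) ≤ L ^ R' := by rw [hR]; exact Nat.floor_le (by positivity)
  have hRX : R ≤ X := by
    have h5 : (R : ℝ) ≤ X := by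
      have h6 : √(X : ℝ) ≤ X := by
        rw [Real.sqrt_le_left hX0.le]
        have : (1 : ℝ) ≤ X := by exact_mod_cast (by omega : 1 ≤ X)
        nlinarith
      linarith
    exact_mod_cast h5
  have hXM : X ≤ M0 * X := Nat.le_mul_of_pos_left _ (by omega)
  have hlXM : L ≤ Real.log ((M0 * X : ℕ) : ℝ) := by
    rw [hLd]
    exact Real.log_le_log hX0 (by exact_mod_cast hXM)
  obtain ⟨Q, hQ⟩ : ∃ Q : ℕ → ℕ → ℤ → ℝ, Q = fun (v m : ℕ) (d : ℤ) => |∑ n ∈ Icc 1 X, W n * (lamI (-(m : ℤ) * (n : ℤ) + ((c + d) + κ * (v : ℤ))) -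
        lamzI z (-(m : ℤ) * (n : ℤ) + ((c + d) + κ * (v : ℤ))))| := ⟨_, rfl⟩
  have hQ0 : ∀ v m d, 0 ≤ Q v m d := fun v m d => by rw [hQ]; exact abs_nonneg _
  have hone' : ∀ m ∈ Icc 1 M0, ∀ d ∈ Icc (-(R : ℤ)) R, ∑ v ∈ Ω, p v * Q v m d ≤
      L * (((M0 * X : ℕ) : ℝ) / L ^ (U + U1 + R' + 4)) := by
    intro m hm d hd
    rw [mem_Icc] at hm hd
    have h5 := one_form X (M0 * X) (U + U1 + R' + 4) Bt Et (B + 3) M0 κ Ω p hone (-(m : ℤ)) (by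
      refine ⟨by omega, ?_⟩
      rw [abs_neg, abs_of_nonneg (Int.natCast_nonneg _)]
      exact_mod_cast hm.2) le_rfl (c + d) (by
      have h6 := abs_add_le c d
      have h7 : |d| ≤ (R : ℤ) := abs_le.2 hd
      have h8 : (R : ℤ) ≤ X := by exact_mod_cast hRX
      have h9 : ((X : ℕ) : ℤ) ≤ ((M0 * X : ℕ) : ℤ) := by exact_mod_cast hXM
      have h10 : (1 : ℤ) ≤ ((M0 * X : ℕ) : ℤ) := by exact_mod_cast (by omega : 1 ≤ M0 * X)
      have h11 : (B : ℤ) * X ≤ B * ((M0 * X : ℕ) : ℤ) := mul_le_mul_of_nonneg_left h9 (by positivity)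
      push_cast at h11 h9 h10 ⊢
      nlinarith) z hz1 hz2 L hL0 W hW
    rw [hQ]
    refine h5.trans ?_
    apply mul_le_mul_of_nonneg_left _ hL0.le
    apply div_le_div_of_nonneg_left (Nat.cast_nonneg _) (by positivity)
    exact pow_le_pow_left₀ hL0.le hlXM _
  have hpt : ∀ v ∈ Ω, (if Bad v then p v else 0) ≤
      ∑ m ∈ Icc 1 M0, ∑ d ∈ Icc (-(R : ℤ)) R, (L ^ U1 / X) * (p v * Q v m d) := by
    intro v hv
    have hnn : ∀ m ∈ Icc 1 M0, 0 ≤ ∑ d ∈ Icc (-(R : ℤ)) R, (L ^ U1 / X) * (p v * Q v m d) := by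
      intro m _
      apply sum_nonneg
      intro d _
      exact mul_nonneg (by positivity) (mul_nonneg (hp0 v hv) (hQ0 v m d))
    split_ifs with hb
    · obtain ⟨m, hm1, hm2, d, hd, hbig⟩ := hBad v hv hb
      refine le_trans ?_ (single_le_sum hnn (mem_Icc.2 ⟨hm1, hm2⟩))
      refine le_trans ?_ (single_le_sum (f := fun d => (L ^ U1 / X) * (p v * Q v m d)) (fun d _ => mul_nonneg (by positivity)
        (mul_nonneg (hp0 v hv) (hQ0 v m d))) (mem_Icc.2 (abs_le.1 hd)))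
      have h5 : (X : ℝ) / L ^ U1 ≤ Q v m d := by rw [hQ]; exact hbig.le
      have h6 : 1 ≤ (L ^ U1 / X) * Q v m d := by
        calc (1 : ℝ) = (L ^ U1 / X) * (X / L ^ U1) := by field_simp
          _ ≤ _ := mul_le_mul_of_nonneg_left h5 (by positivity)
      calc p v = p v * 1 := (mul_one _).symm
        _ ≤ p v * ((L ^ U1 / X) * Q v m d) := mul_le_mul_of_nonneg_left h6 (hp0 v hv)
        _ = _ := by ring
    · exact sum_nonneg hnn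
  refine (sum_le_sum hpt).trans ?_
  rw [sum_comm]
  have h6 : ∀ m ∈ Icc 1 M0, ∑ v ∈ Ω, ∑ d ∈ Icc (-(R : ℤ)) R, (L ^ U1 / X) * (p v * Q v m d) ≤
      (3 * L ^ R') * ((L ^ U1 / X) * (L * (((M0 * X : ℕ) : ℝ) / L ^ (U + U1 + R' + 4)))) := by
    intro m hm
    rw [sum_comm]
    have h7 : ∀ d ∈ Icc (-(R : ℤ)) R, ∑ v ∈ Ω, (L ^ U1 / X) * (p v * Q v m d) ≤
        (L ^ U1 / X) * (L * (((M0 * X : ℕ) : ℝ) / L ^ (U + U1 + R' + 4))) := by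
      intro d hd
      rw [← mul_sum]
      exact mul_le_mul_of_nonneg_left (hone' m hm d hd) (by positivity)
    refine (sum_le_sum h7).trans ?_
    rw [sum_const, nsmul_eq_mul, Int.card_Icc]
    apply mul_le_mul_of_nonneg_right _ (by positivity)
    have e1 : ((R : ℤ) + 1 - -(R : ℤ)).toNat = 2 * R + 1 := by omega
    rw [e1]
    push_cast
    have : 1 ≤ L ^ R' := one_le_pow₀ hL1
    linarith
  refine (sum_le_sum h6).trans ?_
  rw [sum_const, nsmul_eq_mul, Nat.card_Icc, Nat.add_sub_cancel]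
  push_cast
  have e2 : (M0 : ℝ) * (3 * L ^ R' * (L ^ U1 / X * (L * (M0 * X / L ^ (U + U1 + R' + 4))))) =
      (3 * M0 * M0 / L ^ 3) * (1 / L ^ U) := by
    rw [show U + U1 + R' + 4 = U + U1 + R' + 1 + 3 by ring, pow_add L (U + U1 + R' + 1) 3, pow_succ L (U + U1 + R'),
      pow_add L (U + U1) R', pow_add L U U1]
    field_simp
  rw [e2]
  have h8 : 3 * (M0 : ℝ) * M0 / L ^ 3 ≤ 1 := by
    rw [div_le_one (by positivity)]
    have : L ≤ L ^ 3 := le_self_pow₀ hL1 (by norm_num)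
    linarith
  calc (3 * (M0 : ℝ) * M0 / L ^ 3) * (1 / L ^ U) ≤ 1 * (1 / L ^ U) := mul_le_mul_of_nonneg_right h8 (by positivity)
    _ = _ := one_mul _

/-- the law of the sums of few elements of an arbitrary set, with the one shift estimate -/
theorem las_one (l P U : ℕ) (hl : 2 ≤ l) (hP : 1 ≤ P) : ∃ Cst : ℝ, ∀ Hh Q0 Bc : ℕ, 1 ≤ Q0 → ∃ Bt : ℕ, ∀ Et : ℕ, ∃ X₀ : ℕ,
    ∀ T : Set ℕ, (∀ x : ℕ, 1 ≤ x → ∃ a ∈ T, x ≤ a ∧ a ≤ l * x) → ∀ X : ℕ, X₀ ≤ X →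
    ∃ (Ω : Finset ℕ) (p : ℕ → ℝ), (∀ v ∈ Ω, 0 ≤ p v) ∧ ∑ v ∈ Ω, p v = 1 ∧ OneZ (Q0 * X) U Bt Et Bc 1 Ω p ∧
      ∀ v ∈ Ω, v ≤ X ∧ ∃ S : Finset ℕ, v = ∑ x ∈ S, x ∧ (∀ x ∈ S, x ∈ T ∧ Real.log X ^ Hh ≤ x ∧ (x : ℝ) ≤ X / Real.log X ^ Hh) ∧
        ((S.card : ℝ) ≤ Cst * Real.log (Real.log X) ^ 2) ∧ P ∣ ∑ x ∈ S, x := by
  classical
  obtain ⟨b, hb, Cst, hC⟩ := las_lawP l P hl hP (2 * (U + 1) + 6)
  refine ⟨Cst, fun Hh Q0 Bc hQ0 => ?_⟩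
  obtain ⟨e, he⟩ : ∃ e, e = (1 + Bc + 1) * Q0 := ⟨_, rfl⟩
  obtain ⟨c, N₀, h0⟩ := hC Hh e
  obtain ⟨Bt, h1⟩ := tlZ b 20 c hb (by norm_num) U (b ^ (e + 1)) 1 Bc
  refine ⟨Bt, fun Et => ?_⟩
  obtain ⟨N1, h1⟩ := h1 Et
  refine ⟨N₀ + N1 + 2, fun T hT X hX => ?_⟩
  have hX0 : 0 < X := by omega
  have hXM : X ≤ Q0 * X := Nat.le_mul_of_pos_left _ (by omega)
  obtain ⟨K, hK⟩ : ∃ K, K = Nat.log b X + 1 := ⟨_, rfl⟩
  have hKlow : b ^ (K - 1) ≤ X := by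
    rw [hK, Nat.add_sub_cancel]
    exact Nat.pow_log_le_self b (by omega)
  have hKup : X < b ^ K := by rw [hK]; exact Nat.lt_pow_succ_log_self (by omega) _
  have hbe : (1 + Bc + 1) * Q0 ≤ b ^ e := by
    rw [← he]
    exact (Nat.lt_pow_self (by omega)).le
  obtain ⟨n, Ω₀, pr, Sf, g1, g2, g3⟩ := h0 T hT X (by omega)
  have h4 := h1 (Q0 * X) (by omega) (K + e) (by
      calc (1 + Bc + 1) * (Q0 * X) = (1 + Bc + 1) * Q0 * X := by ring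
        _ ≤ b ^ e * b ^ K := Nat.mul_le_mul hbe hKup.le
        _ = _ := by rw [← pow_add, add_comm]) (by
      calc b ^ (K + e) = b ^ (e + 1) * b ^ (K - 1) := by rw [← pow_add]; congr 1; omega
        _ ≤ b ^ (e + 1) * (Q0 * X) := Nat.mul_le_mul_left _ (hKlow.trans hXM)) (Fin n → ℕ) Ω₀ (fun _ => pr)
    (fun ω => ∑ x ∈ Sf ω, x) (by
      rw [← hK] at g2
      exact g2) g1 (fun ω hω => by
      have h5 := (g3 ω hω).2.2.1
      omega)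
  have hp0 : ∀ ω ∈ Ω₀, 0 ≤ (fun _ : Fin n → ℕ => pr) ω := fun ω hω => g2.nonneg ω hω
  refine ⟨Ω₀.image (fun ω => ∑ x ∈ Sf ω, x), pf Ω₀ (fun _ => pr) (fun ω => ∑ x ∈ Sf ω, x),
    fun v _ => pf_nonneg _ _ hp0 _ v, ?_, ?_, ?_⟩
  · have h5 := pf_one Ω₀ (fun _ => pr) g1 (fun ω => ∑ x ∈ Sf ω, x)
    convert h5
  · have h5 := h4.2
    convert h5
  · intro v hv
    rw [mem_image] at hv
    obtain ⟨ω, hω, rfl⟩ := hv
    have h5 := g3 ω hω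
    exact ⟨by omega, Sf ω, rfl, h5.1, h5.2.1, h5.2.2.2⟩

end Pool.Agent.Q26.PW
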