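import Pool.Agent.Q26.PW.PW2

set_option autoImplicit false

/-! `p` and `N - m p` prime, `F_1(p), ..., F_g(p)` without small prime factors, for all the integers `N` of short intervals
around sums of few elements of arbitrary sets. -/

namespace Pool.Agent.Q26.PW
open Finset Polynomial
open Pool.Agent.H373R2.T7
open Pool.Agent.H373R2.T7.TB
open Pool.Agent.H373R2.T7.PB
open Pool.Agent.Y820.LF
open Pool.Agent.Q26.PD

/-- the linear polynomial `m X` -/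
noncomputable def LinG (m : ℕ) : ℤ[X] := C (m : ℤ) * X

lemma LinG_eval (m : ℕ) (n : ℤ) : (LinG m).eval n = m * n := by unfold LinG; simp

/-- the largest `y` with `y ^ K ≤ X` -/
def root (K X : ℕ) : ℕ := Nat.findGreatest (fun y => y ^ K ≤ X) X

lemma le_root (K X ℓ : ℕ) (hK : 1 ≤ K) (h : ℓ ^ K ≤ X) : ℓ ≤ root K X :=
  Nat.le_findGreatest (P := fun y => y ^ K ≤ X) ((Nat.le_self_pow (by omega) ℓ).trans h) h

lemma root_pow (K X : ℕ) (hK : 1 ≤ K) : root K X ^ K ≤ X := by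
  unfold root
  exact Nat.findGreatest_spec (P := fun y => y ^ K ≤ X) (m := 0) (Nat.zero_le _) (by
    show 0 ^ K ≤ X
    rw [Nat.zero_pow (by omega)]
    exact Nat.zero_le _)

/-- the deterministic and the random part together: a random constant with the one shift estimate -/
theorem pw_main (D : ℕ) (ε : ℝ) (hε : 0 < ε) : ∃ K : ℕ, 1 ≤ K ∧
    ∀ (g : ℕ) (F : Fin g → ℤ[X]), (∀ i, 1 ≤ (F i).natDegree) → (∀ i, 0 < (F i).leadingCoeff) → ∑ i, (F i).natDegree + 1 ≤ D →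
    ∀ (M0 R' U : ℕ) (κ : ℝ), 1 ≤ M0 → 0 < κ → ∃ U1 : ℕ, ∀ (k : ℤ) (B Bt : ℕ), ∃ n0 : ℕ, ∀ X : ℕ, n0 ≤ X →
    ∀ (c : ℤ) (Ω : Finset ℕ) (p : ℕ → ℝ), |c| ≤ (B : ℤ) * X → (∀ v ∈ Ω, 0 ≤ p v) →
    (∀ v ∈ Ω, |c + k * (v : ℤ)| ≤ (B : ℤ) * X) →
    OneZ (M0 * X) (U + U1 + R' + 4) Bt (Bt + 2) (B + 3) k Ω p →
    ∀ Bad : ℕ → Prop, [DecidablePred Bad] →
    (∀ v ∈ Ω, Bad v → ¬ ∀ N : ℕ, |(N : ℤ) - (c + k * (v : ℤ))| ≤ (⌊Real.log X ^ R'⌋₊ : ℤ) → 1 ≤ N → ∀ m : ℕ, 1 ≤ m → m ≤ M0 →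
      NoFixed (PArg.eF F) (LinG m) N → κ * X ≤ SHN.XCount (LinG m) N X →
      ∃ z : ℕ, Real.log X ≤ z ∧ (z : ℝ) ≤ Real.log X ^ (Bt + 3) ∧ z ≤ root K X ∧
        |WP F (LinG m) N (root K X) X - TP F (LinG m) N z (root K X) X| ≤ ε * TP F (LinG m) N z (root K X) X) →
    ∑ v ∈ Ω, (if Bad v then p v else 0) ≤ 1 / Real.log X ^ U := by
  classical
  obtain ⟨K, hK, hdet⟩ := pb_det D ε hε
  refine ⟨K, hK, fun g F hF hFl hD M0 R' U κ hM0 hκ => ?_⟩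
  have hm : ∀ m : ℕ, ∃ U' : ℕ, 1 ≤ m → ∀ E : ℕ, ∃ x0 : ℕ, ∀ x : ℕ, x0 ≤ x →
      ∀ z y : ℕ, Real.log x ≤ z → (z : ℝ) ≤ Real.log x ^ E → z ≤ y → y ^ K ≤ x → ∀ N : ℕ, 1 ≤ N →
      |∑ n ∈ Icc 1 x, (lamP (n : ℤ) * rw1 F y n) * (lamP ((N : ℤ) - (LinG m).eval (n : ℤ)) - lamzI z ((N : ℤ) - (LinG m).eval (n : ℤ)))| ≤
        x / Real.log x ^ U' →
      NoFixed (PArg.eF F) (LinG m) N → κ * x ≤ SHN.XCount (LinG m) N x →
        |WP F (LinG m) N y x - TP F (LinG m) N z y x| ≤ ε * TP F (LinG m) N z y x := by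
    intro m
    by_cases h : 1 ≤ m
    · have hdeg : (LinG m).natDegree = 1 := natDegree_C_mul_X _ (by exact_mod_cast (by omega : m ≠ 0))
      have hlc : 0 < (LinG m).leadingCoeff := by
        unfold LinG
        rw [leadingCoeff_C_mul_X]
        exact_mod_cast (by omega : 0 < m)
      obtain ⟨U', h'⟩ := hdet g F hF hFl (LinG m) (by rw [hdeg]) hlc (by rw [hdeg]; exact hD) κ hκ
      exact ⟨U', fun _ => h'⟩
    · exact ⟨0, fun h' => absurd h' h⟩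
  choose U' hU' using hm
  obtain ⟨U2, hU2⟩ : ∃ U2, U2 = ∑ m ∈ Icc 1 M0, U' m := ⟨_, rfl⟩
  refine ⟨U2 + 1, fun k B Bt => ?_⟩
  have hx : ∀ m : ℕ, ∃ x0 : ℕ, 1 ≤ m → ∀ x : ℕ, x0 ≤ x →
      ∀ z y : ℕ, Real.log x ≤ z → (z : ℝ) ≤ Real.log x ^ (Bt + 3) → z ≤ y → y ^ K ≤ x → ∀ N : ℕ, 1 ≤ N →
      |∑ n ∈ Icc 1 x, (lamP (n : ℤ) * rw1 F y n) * (lamP ((N : ℤ) - (LinG m).eval (n : ℤ)) - lamzI z ((N : ℤ) - (LinG m).eval (n : ℤ)))| ≤
        x / Real.log x ^ U' m →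
      NoFixed (PArg.eF F) (LinG m) N → κ * x ≤ SHN.XCount (LinG m) N x →
        |WP F (LinG m) N y x - TP F (LinG m) N z y x| ≤ ε * TP F (LinG m) N z y x := by
    intro m
    by_cases h : 1 ≤ m
    · obtain ⟨x0, h'⟩ := hU' m h (Bt + 3)
      exact ⟨x0, fun _ => h'⟩
    · exact ⟨0, fun h' => absurd h' h⟩
  choose x0 hx0 using hx
  obtain ⟨x1, hx1⟩ : ∃ x1, x1 = ∑ m ∈ Icc 1 M0, x0 m := ⟨_, rfl⟩
  obtain ⟨n1, h1⟩ := pw_rare M0 B Bt (Bt + 2) U (U2 + 1) R' hM0 k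
  obtain ⟨n2, h2⟩ := z_small M0 (Bt + 2)
  obtain ⟨n3, h3⟩ := ev_L' (Real.log ((B + 2 : ℕ) : ℝ) + 2)
  obtain ⟨n4, h4⟩ := ev_log' (2 + (U2 + 1)) (4 * ((B : ℝ) + 2))
  obtain ⟨n5, h5⟩ := ev_log' ((Bt + 3) * K) 1
  obtain ⟨n6, h6⟩ := ev_log' R' 1
  refine ⟨x1 + n1 + n2 + n3 + n4 + n5 + n6 + 2, fun X hX c Ω p hc hp0 hA hone Bad _ hBad => ?_⟩
  have hL := h3 X (by omega)
  have a4 := h4 X (by omega)
  have a5 := h5 X (by omega)
  have a6 := h6 X (by omega)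
  rw [one_mul] at a5 a6
  have hX0 : (0 : ℝ) < X := by exact_mod_cast (by omega : 0 < X)
  have hX1 : (1 : ℝ) ≤ X := by exact_mod_cast (by omega : 1 ≤ X)
  have hlB : 0 ≤ Real.log ((B + 2 : ℕ) : ℝ) := Real.log_natCast_nonneg _
  have hXM : X ≤ M0 * X := Nat.le_mul_of_pos_left _ (by omega)
  have hlXM : Real.log (X : ℝ) ≤ Real.log ((M0 * X : ℕ) : ℝ) := Real.log_le_log hX0 (by exact_mod_cast hXM)
  obtain ⟨z, hz⟩ : ∃ z, z = ⌈Real.log ((M0 * X : ℕ) : ℝ) ^ (Bt + 1)⌉₊ := ⟨_, rfl⟩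
  have hM2 : 2 ≤ Real.log ((M0 * X : ℕ) : ℝ) := by linarith
  have hz1 : Real.log ((M0 * X : ℕ) : ℝ) ^ (Bt + 1) ≤ z := by rw [hz]; exact Nat.le_ceil _
  have hz2 : (z : ℝ) ≤ Real.log ((M0 * X : ℕ) : ℝ) ^ (Bt + 2) := by
    have q1 : (z : ℝ) < Real.log ((M0 * X : ℕ) : ℝ) ^ (Bt + 1) + 1 := by rw [hz]; exact Nat.ceil_lt_add_one (by positivity)
    have q2 : 1 ≤ Real.log ((M0 * X : ℕ) : ℝ) ^ (Bt + 1) := one_le_pow₀ (by linarith)
    rw [show Bt + 2 = (Bt + 1) + 1 by ring, pow_succ]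
    nlinarith
  have hz3 : Real.log ((M0 * X : ℕ) : ℝ) ^ Bt ≤ z := (pow_le_pow_right₀ (by linarith) (by omega)).trans hz1
  have hz4 : Real.log (X : ℝ) ≤ z := by
    refine hlXM.trans (le_trans ?_ hz1)
    calc Real.log ((M0 * X : ℕ) : ℝ) = Real.log ((M0 * X : ℕ) : ℝ) ^ 1 := (pow_one _).symm
      _ ≤ _ := pow_le_pow_right₀ (by linarith) (by omega)
  have hz5 : (z : ℝ) ≤ Real.log (X : ℝ) ^ (Bt + 3) := hz2.trans (h2 X (by omega) X (by nlinarith)).2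
  obtain ⟨L, hLd⟩ : ∃ L, L = Real.log (X : ℝ) := ⟨_, rfl⟩
  obtain ⟨y, hy⟩ : ∃ y, y = root K X := ⟨_, rfl⟩
  have hzy : z ≤ y := by
    rw [hy]
    apply le_root K X z hK
    have h7 : ((z ^ K : ℕ) : ℝ) ≤ X := by
      push_cast
      calc (z : ℝ) ^ K ≤ (Real.log (X : ℝ) ^ (Bt + 3)) ^ K := pow_le_pow_left₀ (Nat.cast_nonneg _) hz5 K
        _ = Real.log (X : ℝ) ^ ((Bt + 3) * K) := by rw [← pow_mul]
        _ ≤ √(X : ℝ) := a5
        _ ≤ X := by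
          rw [Real.sqrt_le_left hX0.le]
          nlinarith
    exact_mod_cast h7
  have hyK : y ^ K ≤ X := by rw [hy]; exact root_pow K X hK
  refine h1 X (by omega) z hz3 hz2 (fun n => lamP (n : ℤ) * rw1 F y n) ?_ c Ω p hc hp0 hone Bad ?_
  · intro n hn
    rw [mem_Icc] at hn
    rw [abs_of_nonneg (mul_nonneg (lamP_nonneg _) (rw1_nonneg F y n))]
    have h6 : lamP (n : ℤ) ≤ Real.log (X : ℝ) := by
      unfold lamP
      rw [Int.toNat_natCast]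
      split_ifs
      · exact Real.log_le_log (by exact_mod_cast hn.1) (by exact_mod_cast hn.2)
      · linarith
    calc lamP (n : ℤ) * rw1 F y n ≤ lamP (n : ℤ) * 1 := mul_le_mul_of_nonneg_left (rw1_le F y n) (lamP_nonneg _)
      _ ≤ Real.log (X : ℝ) := by rw [mul_one]; exact h6
  · intro v hv hb
    by_contra hcon
    push Not at hcon
    apply hBad v hv hb
    intro N hN hN1 m hm1 hm2 hNF hXc
    refine ⟨z, hz4, hz5, by rw [← hy]; exact hzy, ?_⟩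
    rw [← hy]
    have hxm : x0 m ≤ x1 := by
      rw [hx1]
      exact single_le_sum (f := x0) (fun _ _ => Nat.zero_le _) (mem_Icc.2 ⟨hm1, hm2⟩)
    have hUm : U' m ≤ U2 := by
      rw [hU2]
      exact single_le_sum (f := U') (fun _ _ => Nat.zero_le _) (mem_Icc.2 ⟨hm1, hm2⟩)
    refine hx0 m hm1 X (by omega) z y hz4 hz5 hzy hyK N hN1 ?_ hNF hXc
    have h7 := hcon m hm1 hm2 ((N : ℤ) - (c + k * (v : ℤ))) hN
    have e1 : ∀ n : ℕ, -(m : ℤ) * (n : ℤ) + ((c + ((N : ℤ) - (c + k * (v : ℤ)))) + k * (v : ℤ)) = (N : ℤ) - m * (n : ℤ) := by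
      intro n; ring
    simp only [e1] at h7
    simp only [LinG_eval]
    have hNB : (N : ℝ) ≤ (B + 2) * X := by
      have b1 := hA v hv
      have b2 := (abs_le.1 hN).2
      have b3 := le_abs_self (c + k * (v : ℤ))
      have b4 : (⌊Real.log (X : ℝ) ^ R'⌋₊ : ℝ) ≤ X := by
        have b5 : (⌊Real.log (X : ℝ) ^ R'⌋₊ : ℝ) ≤ Real.log (X : ℝ) ^ R' := Nat.floor_le (by
          apply pow_nonneg; linarith)
        have b6 : √(X : ℝ) ≤ X := by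
          rw [Real.sqrt_le_left hX0.le]
          nlinarith
        linarith
      have b5 : (N : ℤ) ≤ (B : ℤ) * X + ⌊Real.log (X : ℝ) ^ R'⌋₊ := by linarith
      have b6 : (N : ℝ) ≤ (B : ℝ) * X + (⌊Real.log (X : ℝ) ^ R'⌋₊ : ℝ) := by exact_mod_cast b5
      nlinarith
    have hpp := pp_form N X m hm1 hN1
    have hN0 : (0 : ℝ) < N := by exact_mod_cast hN1
    have hlN : Real.log N ≤ 2 * L := by
      have c1 : Real.log N ≤ Real.log (((B : ℝ) + 2) * X) := Real.log_le_log hN0 hNB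
      rw [Real.log_mul (by positivity) hX0.ne'] at c1
      have c2 : Real.log ((B + 2 : ℕ) : ℝ) = Real.log ((B : ℝ) + 2) := by push_cast; rfl
      rw [c2, ← hLd] at hL
      rw [← hLd] at c1
      linarith
    have hsN : √(N : ℝ) ≤ (B + 2) * √(X : ℝ) := by
      have c1 : √(N : ℝ) ≤ √(((B : ℝ) + 2) * X) := Real.sqrt_le_sqrt hNB
      rw [Real.sqrt_mul (by positivity)] at c1
      have c2 : √((B : ℝ) + 2) ≤ B + 2 := by
        rw [Real.sqrt_le_left (by positivity)]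
        have : (0 : ℝ) ≤ B := Nat.cast_nonneg _
        nlinarith
      exact c1.trans (mul_le_mul_of_nonneg_right c2 (Real.sqrt_nonneg _))
    have hL2 : 2 ≤ L := by rw [hLd]; linarith
    have hL0 : 0 < L := by linarith
    have hppX : L * (2 * √(N : ℝ) * Real.log N) ≤ X / L ^ (U2 + 1) := by
      rw [le_div_iff₀ (by positivity)]
      have hs0 := Real.sqrt_nonneg (X : ℝ)
      have hlN0 : 0 ≤ Real.log N := Real.log_natCast_nonneg _
      calc L * (2 * √(N : ℝ) * Real.log N) * L ^ (U2 + 1) ≤ L * (2 * ((B + 2) * √(X : ℝ)) * (2 * L)) * L ^ (U2 + 1) := by gcongr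
        _ = (4 * ((B : ℝ) + 2) * L ^ (2 + (U2 + 1))) * √(X : ℝ) := by rw [pow_add L 2]; ring
        _ ≤ √(X : ℝ) * √(X : ℝ) := by
            apply mul_le_mul_of_nonneg_right _ hs0
            rw [hLd]
            exact a4
        _ = X := Real.mul_self_sqrt hX0.le
    have hsplit : ∑ n ∈ Icc 1 X, (lamP (n : ℤ) * rw1 F y n) * (lamP ((N : ℤ) - m * (n : ℤ)) - lamzI z ((N : ℤ) - m * (n : ℤ))) =
        ∑ n ∈ Icc 1 X, (lamP (n : ℤ) * rw1 F y n) * (lamI ((N : ℤ) - m * (n : ℤ)) - lamzI z ((N : ℤ) - m * (n : ℤ))) -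
        ∑ n ∈ Icc 1 X, (lamP (n : ℤ) * rw1 F y n) * (lamI ((N : ℤ) - m * (n : ℤ)) - lamP ((N : ℤ) - m * (n : ℤ))) := by
      rw [← sum_sub_distrib]
      apply sum_congr rfl
      intro n _
      ring
    have hW : ∀ n ∈ Icc 1 X, |lamP (n : ℤ) * rw1 F y n| ≤ L := by
      intro n hn
      rw [mem_Icc] at hn
      rw [abs_of_nonneg (mul_nonneg (lamP_nonneg _) (rw1_nonneg F y n))]
      have h6 : lamP (n : ℤ) ≤ L := by
        unfold lamP
        rw [Int.toNat_natCast, hLd]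
        split_ifs
        · exact Real.log_le_log (by exact_mod_cast hn.1) (by exact_mod_cast hn.2)
        · linarith
      calc lamP (n : ℤ) * rw1 F y n ≤ lamP (n : ℤ) * 1 := mul_le_mul_of_nonneg_left (rw1_le F y n) (lamP_nonneg _)
        _ ≤ L := by rw [mul_one]; exact h6
    have herr : |∑ n ∈ Icc 1 X, (lamP (n : ℤ) * rw1 F y n) * (lamI ((N : ℤ) - m * (n : ℤ)) - lamP ((N : ℤ) - m * (n : ℤ)))| ≤
        L * (2 * √(N : ℝ) * Real.log N) := by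
      refine (abs_sum_le_sum_abs _ _).trans ?_
      refine le_trans (sum_le_sum (g := fun n : ℕ => L * |lamI ((N : ℤ) - m * (n : ℤ)) - lamP ((N : ℤ) - m * (n : ℤ))|) ?_) ?_
      · intro n hn
        rw [abs_mul]
        exact mul_le_mul_of_nonneg_right (hW n hn) (abs_nonneg _)
      · rw [← mul_sum]
        exact mul_le_mul_of_nonneg_left hpp hL0.le
    rw [hsplit]
    rw [← hLd] at h7 ⊢
    have h8 := abs_sub (∑ n ∈ Icc 1 X, (lamP (n : ℤ) * rw1 F y n) * (lamI ((N : ℤ) - m * (n : ℤ)) - lamzI z ((N : ℤ) - m * (n : ℤ))))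
      (∑ n ∈ Icc 1 X, (lamP (n : ℤ) * rw1 F y n) * (lamI ((N : ℤ) - m * (n : ℤ)) - lamP ((N : ℤ) - m * (n : ℤ))))
    refine h8.trans ((add_le_add h7 (herr.trans hppX)).trans ?_)
    calc (X : ℝ) / L ^ (U2 + 1) + X / L ^ (U2 + 1) = (2 / L) * (X / L ^ U2) := by
          rw [pow_succ]; field_simp; ring
      _ ≤ 1 * (X / L ^ U2) := by
          apply mul_le_mul_of_nonneg_right _ (by positivity)
          rw [div_le_one hL0]
          exact hL2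
      _ = X / L ^ U2 := one_mul _
      _ ≤ X / L ^ U' m := by
          apply div_le_div_of_nonneg_left hX0.le (by positivity)
          exact pow_le_pow_right₀ (by linarith) hUm

end Pool.Agent.Q26.PW
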