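import Pool.Agent.Q26.PW.PW3

set_option autoImplicit false

/-! `p` and `N - m p` prime, `F_1(p), ..., F_g(p)` without small prime factors, for all the integers `N` of short intervals
around sums of few elements of arbitrary sets, and around the elements of families of sets. -/

namespace Pool.Agent.Q26.PW
open Finset Polynomial
open Pool.Agent.H373R2.T7
open Pool.Agent.H373R2.T7.TB
open Pool.Agent.H373R2.T7.PB
open Pool.Agent.Y820.LF
open Pool.Agent.Q26.PD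

/-- all the integers `N` around `n` are good for all coefficients `m ≤ M0` -/
def GoodN (ε : ℝ) (K M0 R' X : ℕ) {g : ℕ} (F : Fin g → ℤ[X]) (κ : ℝ) (n : ℤ) : Prop :=
  ∀ N : ℕ, |(N : ℤ) - n| ≤ (⌊Real.log X ^ R'⌋₊ : ℤ) → 1 ≤ N → ∀ m : ℕ, 1 ≤ m → m ≤ M0 →
      NoFixed (PArg.eF F) (LinG m) N → κ * X ≤ SHN.XCount (LinG m) N X →
      ∃ z : ℕ, z ≤ root K X ∧
        |WP F (LinG m) N (root K X) X - TP F (LinG m) N z (root K X) X| ≤ ε * TP F (LinG m) N z (root K X) X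

theorem pw_both (D : ℕ) (ε : ℝ) (hε : 0 < ε) : ∃ K : ℕ, 1 ≤ K ∧
    ∀ (g : ℕ) (F : Fin g → ℤ[X]), (∀ i, 1 ≤ (F i).natDegree) → (∀ i, 0 < (F i).leadingCoeff) → ∑ i, (F i).natDegree + 1 ≤ D →
    (∀ (l P M0 R' : ℕ) (κ : ℝ), 2 ≤ l → 1 ≤ P → 1 ≤ M0 → 0 < κ → ∃ Cst : ℝ, ∀ Hh B : ℕ, ∃ X₀ : ℕ, ∀ T : Set ℕ,
      (∀ x : ℕ, 1 ≤ x → ∃ a ∈ T, x ≤ a ∧ a ≤ l * x) → ∀ X : ℕ, X₀ ≤ X → ∀ a : ℤ, |a| ≤ (B : ℤ) * X →
      ∃ S : Finset ℕ, (∀ x ∈ S, x ∈ T ∧ Real.log X ^ Hh ≤ x ∧ (x : ℝ) ≤ X / Real.log X ^ Hh) ∧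
        ((S.card : ℝ) ≤ Cst * Real.log (Real.log X) ^ 2) ∧ P ∣ ∑ x ∈ S, x ∧
        GoodN ε K M0 R' X F κ (a + ((∑ x ∈ S, x : ℕ) : ℤ))) ∧
    (∀ (k : ℤ) (Bv : ℕ) (𝒮 : ℕ → Finset ℕ → Prop), HasZ k Bv 𝒮 → ∀ (M0 R' B U : ℕ) (κ : ℝ), 1 ≤ M0 → 0 < κ →
      ∃ X₀ : ℕ, ∀ X : ℕ, X₀ ≤ X → ∀ S : Finset ℕ, 𝒮 X S → ∀ c : ℤ, |c| ≤ (B : ℤ) * X → ∀ Bad : ℕ → Prop, [DecidablePred Bad] →
        (∀ v ∈ S, Bad v → ¬ GoodN ε K M0 R' X F κ (c + k * (v : ℤ))) →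
        ((S.filter Bad).card : ℝ) ≤ S.card / Real.log X ^ U) := by
  classical
  obtain ⟨K, hK, h⟩ := pw_main D ε hε
  refine ⟨K, hK, fun g F hF hFl hD => ⟨?_, ?_⟩⟩
  · intro l P M0 R' κ hl hP hM0 hκ
    obtain ⟨U1, h1⟩ := h g F hF hFl hD M0 R' 1 κ hM0 hκ
    obtain ⟨Cst, hC⟩ := las_one l P (1 + U1 + R' + 4) hl hP
    refine ⟨Cst, fun Hh B => ?_⟩
    obtain ⟨Bt, h2⟩ := hC Hh M0 ((B + 1) + 3) hM0
    obtain ⟨X₀, h2⟩ := h2 (Bt + 2)
    obtain ⟨n0, h1⟩ := h1 1 (B + 1) Bt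
    obtain ⟨n3, h3⟩ := ev_L' 2
    refine ⟨X₀ + n0 + n3 + 2, fun T hT X hX a ha => ?_⟩
    obtain ⟨Ω, p, hp0, hp1, hone, hS⟩ := h2 T hT X (by omega)
    have hL := h3 X (by omega)
    have h4 := h1 X (by omega) a Ω p (ha.trans (by push_cast; nlinarith [(Nat.cast_nonneg X : (0 : ℤ) ≤ X)])) hp0 (fun v hv => by
      have h5 := abs_le_of a 1 X v B 1 ha (by have := (hS v hv).1; omega)
      rw [Int.natAbs_one, mul_one] at h5
      exact h5) hone (fun v => ¬ GoodN ε K M0 R' X F κ (a + 1 * (v : ℤ))) (fun v _ hb hgood => hb fun N hN hN1 m hm1 hm2 h5 h6 => by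
        obtain ⟨z, _, _, hz3, hz4⟩ := hgood N hN hN1 m hm1 hm2 h5 h6
        exact ⟨z, hz3, hz4⟩)
    have hex : ∃ v ∈ Ω, GoodN ε K M0 R' X F κ (a + 1 * (v : ℤ)) := by
      by_contra hcon
      push Not at hcon
      have h5 : ∑ v ∈ Ω, p v ≤ 1 / Real.log X ^ 1 := by
        refine le_trans (le_of_eq ?_) h4
        apply sum_congr rfl
        intro v hv
        rw [if_pos (hcon v hv)]
      rw [hp1, pow_one, le_div_iff₀ (by linarith), one_mul] at h5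
      linarith
    obtain ⟨v, hv, hgood⟩ := hex
    obtain ⟨_, S, rfl, g1, g2, g3⟩ := hS v hv
    refine ⟨S, g1, g2, g3, ?_⟩
    rw [one_mul] at hgood
    exact hgood
  · intro k Bv 𝒮 hZ M0 R' B U κ hM0 hκ
    obtain ⟨U1, h1⟩ := h g F hF hFl hD M0 R' (U + 1) κ hM0 hκ
    obtain ⟨C, hC0, hC⟩ := hZ
    obtain ⟨B1, hB1⟩ : ∃ B1, B1 = B + k.natAbs * Bv := ⟨_, rfl⟩
    obtain ⟨Bt, h2⟩ := hC M0 (B1 + 3) ((U + 1) + U1 + R' + 4) hM0
    obtain ⟨X₀, h2⟩ := h2 (Bt + 2)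
    obtain ⟨n0, h1⟩ := h1 k B1 Bt
    obtain ⟨n3, h3⟩ := ev_L' (C + 2)
    refine ⟨X₀ + n0 + n3 + 2, fun X hX S hS c hc Bad _ hBad => ?_⟩
    obtain ⟨Ω, p, hp0, hp1, _, hpA, hmem, hone⟩ := h2 X (by omega) S hS
    have hL := h3 X (by omega)
    have hcB : |c| ≤ (B1 : ℤ) * X := by
      refine hc.trans ?_
      have : B ≤ B1 := by omega
      exact_mod_cast Nat.mul_le_mul_right X this
    have h4 := h1 X (by omega) c Ω p hcB hp0 (fun v hv => by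
      have h5 := abs_le_of c k X v B Bv hc (hpA v hv)
      rw [hB1]
      exact h5) hone (fun v => ¬ GoodN ε K M0 R' X F κ (c + k * (v : ℤ))) (fun v _ hb hgood => hb fun N hN hN1 m hm1 hm2 h5 h6 => by
        obtain ⟨z, _, _, hz3, hz4⟩ := hgood N hN hN1 m hm1 hm2 h5 h6
        exact ⟨z, hz3, hz4⟩)
    have hL1 : 1 ≤ Real.log X := by linarith
    have hSc : (0 : ℝ) ≤ S.card := Nat.cast_nonneg _
    calc ((S.filter Bad).card : ℝ) = ∑ v ∈ S.filter Bad, (1 : ℝ) := by rw [sum_const, nsmul_eq_mul, mul_one]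
      _ ≤ ∑ v ∈ S.filter Bad, (C * S.card) * (if ¬ GoodN ε K M0 R' X F κ (c + k * (v : ℤ)) then p v else 0) := by
        apply sum_le_sum
        intro v hv
        rw [mem_filter] at hv
        rw [if_pos (hBad v hv.1 hv.2)]
        exact (hmem v hv.1).2
      _ ≤ ∑ v ∈ Ω, (C * S.card) * (if ¬ GoodN ε K M0 R' X F κ (c + k * (v : ℤ)) then p v else 0) := by
        apply sum_le_sum_of_subset_of_nonneg
        · intro v hv
          exact (hmem v (mem_filter.1 hv).1).1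
        · intro v hv _
          apply mul_nonneg (by positivity)
          split_ifs
          · exact le_rfl
          · exact hp0 v hv
      _ ≤ (C * S.card) * (1 / Real.log X ^ (U + 1)) := by
        rw [← mul_sum]
        exact mul_le_mul_of_nonneg_left h4 (by positivity)
      _ ≤ S.card / Real.log X ^ U := by
        rw [mul_one_div, div_le_div_iff₀ (by positivity) (by positivity), pow_succ]
        have : 0 ≤ (S.card : ℝ) * Real.log X ^ U := by positivity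
        calc C * (S.card : ℝ) * Real.log X ^ U = C * ((S.card : ℝ) * Real.log X ^ U) := by ring
          _ ≤ Real.log X * ((S.card : ℝ) * Real.log X ^ U) := mul_le_mul_of_nonneg_right (by linarith) this
          _ = _ := by ring

end Pool.Agent.Q26.PW
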